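import Mathlib
import Pool.Prelude.Def_F_458e953d

namespace Pool.Agent.MP_8a92de_lc.H86

open N68a2faeb

/-- Value on the input `x` of gate `g` in layer `l` of a layered circuit. Layer `0` holds the input
bits. A gate of layer `l + 1` is the OR of those literals `k < Q` that the wiring `W` attaches to
it; literal `k` is gate `k / 2` of layer `l`, negated if `k` is odd. -/
def gate (W : List Bool × ℕ × ℕ × ℕ → Bool) (Q : ℕ) (x : List Bool) : ℕ → ℕ → Bool
  | 0, g => x.getD g false
  | l + 1, g => (List.range Q).any fun k => W (List.replicate x.length true, l, g, k) &&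
      xor (decide (k % 2 = 1)) (gate W Q x l (k / 2))

/-- `h` lists the gates of the last layer of a P-uniform family of circuits of constant depth and
polynomial size. -/
def IsUAC (h : List Bool → List Bool) : Prop :=
  ∃ (d : ℕ) (q : Polynomial ℕ) (W : List Bool × ℕ × ℕ × ℕ → Bool), IsPolyTime W ∧
    ∀ x, h x = (List.range (q.eval x.length)).map (gate W (q.eval x.length) x d)

/-- `k` is polynomial-time computable, the length of `k x` depends only on the length `n` of `x`,
and every bit of `k x` depends only on a list of `O(n ^ (1 - ε))` bits of `x` that is computable in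
polynomial time from `n` in unary and the position. -/
def IsLocal (k : List Bool → List Bool) : Prop :=
  IsPolyTime k ∧ (∀ x y : List Bool, x.length = y.length → (k x).length = (k y).length) ∧
    ∃ (c : ℕ) (V : List Bool × ℕ → List ℕ), IsPolyTime V ∧ ∀ n j,
      (V (List.replicate n true, j)).length ^ (c + 1) ≤ c * n ^ c ∧
      ∀ x y : List Bool, x.length = n → y.length = n →
        (∀ i ∈ V (List.replicate n true, j), x.getD i false = y.getD i false) →
        (k x).getD j false = (k y).getD j false

/-- Modulo `m`, the numbers `F (x, i)` are polynomials of bounded degree in the bits of `h x`; the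
polynomials depend on `i` and on the length of `x` in an arbitrary way. -/
def IsModPoly (m : ℕ) (h : List Bool → List Bool) (F : List Bool × ℕ → ℕ) : Prop :=
  ∃ D : ℕ, ∀ n i : ℕ, ∃ P : MvPolynomial ℕ (ZMod m), P.totalDegree ≤ D ∧
    ∀ x : List Bool, x.length = n →
      MvPolynomial.eval (fun g => if (h x).getD g false then 1 else 0) P = (F (x, i) : ZMod m)

/-- The symbol `(f x)[j]?` (a bit, or `none` beyond the end of `f x`) is fixed by the residues
modulo `m` of the numbers `F (x, i)` for `i` in a list of length `n ^ o(1)` that is computable in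
polynomial time from `x` and `j`. -/
def IsCert (m : ℕ) (F : List Bool × ℕ → ℕ) (f : List Bool → List Bool) : Prop :=
  ∃ T : List Bool × ℕ → List ℕ, IsPolyTime T ∧
    (∀ c, ∃ K, ∀ x j, (T (x, j)).length ^ c ≤ K * (x.length + 1)) ∧
    ∀ (x y : List Bool) (j : ℕ), x.length = y.length →
      (∀ i ∈ T (x, j), F (y, i) ≡ F (x, i) [MOD m]) → (f y)[j]? = (f x)[j]?

/-- Polynomial-time maps whose output symbols have short certificates in terms of polynomials of
bounded degree modulo `m` over P-uniform `AC⁰` circuits over local maps. -/
def IsTame (f : List Bool → List Bool) : Prop :=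
  IsPolyTime f ∧ ∃ (m : ℕ) (h k : List Bool → List Bool) (F : List Bool × ℕ → ℕ), 0 < m ∧
    IsUAC h ∧ IsLocal k ∧ IsPolyTime F ∧ IsModPoly m (fun x => h (k x)) F ∧ IsCert m F f

end Pool.Agent.MP_8a92de_lc.H86
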